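import Pool.Agent.TH71.GR.Stm
import Pool.Agent.TH71.PG.Lib
import Pool.Agent.W920.FD.T_STGS
import Pool.Agent.W920.FD.T_FN

set_option autoImplicit false

/-!
# Project GR (helper71), job PSTGS: stages of simultaneous Diophantine approximation, with pivots
-/

namespace Pool.Agent.TH822.GR

open Pool.Agent.NPC Pool.Agent.H558R2 Pool.Agent.H622R3.SM Pool.Agent.W920.FC Pool.Agent.W920.FD
open Pool.Agent.TH71.PG Pool.Agent.TH71.GR
open Pool.Agent.W920.FD.TSTGS Pool.Agent.W920.FD.TFN

/-- The entries of a combination of forms. -/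
lemma fcomb_getD (N : ℕ) (c : ℤ) (C : List ℤ) (d : ℤ) (D : List ℤ) (i : ℕ) (h : i < N) :
    (fcomb N c C d D).getD i 0 = c * C.getD i 0 + d * D.getD i 0 := by
  unfold fcomb
  exact getD_map_range N _ i 0 h

/-- The initial state. -/
lemma piv_init (N : ℕ) : PivInv N ([], (unitF N, 1)) := by
  refine ⟨∅, by simp, fun l hl => by simp at hl, fun l hl => ⟨fun h => by simp at h, fun _ => ?_⟩⟩
  have e : ∀ i < N, ((unitF N).getD l []).getD i 0 = if i = l then 1 else 0 := by
    intro i hi
    unfold unitF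
    rw [getD_map_range N _ l [] hl, getD_map_range N _ i 0 hi]
  dsimp only
  refine ⟨?_, ?_⟩
  · rw [e l hl, if_pos rfl]
    simp
  · intro i hi hil _
    rw [e i hi, if_neg hil]

/-- The end of a stage. -/
lemma piv_finish (N E h : ℕ) (w : ℕ → ℝ) (s : S2) (sg : List ℤ) (best : ℕ)
    (a : List ℕ) (hN1 : 1 ≤ N) (hE : h + 2 * N + 4 ≤ E) (hP : PivInv N s)
    (hsl : sg.length = N) (hsg : ∀ l < N, (sg.getD l 0 : ℤ) =
      (SignType.sign (evF N w (s.2.1.getD l [])) : ℤ))
    (hb : best < N)
    (hmax : ∀ l < N, |evF N w (s.2.1.getD l [])| ≤ |evF N w (s.2.1.getD best [])|)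
    (ha : evF N w (s.2.1.getD best []) ≠ 0 → ∀ l < N, l ≠ best →
      a.getD l 0 < 2 ^ ((N + 1) * E) ∧
      (a.getD l 0 : ℝ) * |evF N w (s.2.1.getD best [])| ≤
        2 ^ ((N + 1) * E) * |evF N w (s.2.1.getD l [])| ∧
      2 ^ ((N + 1) * E) * |evF N w (s.2.1.getD l [])| ≤
        ((a.getD l 0 : ℝ) + 1) * |evF N w (s.2.1.getD best [])|) :
    PivInv N (W920.FD.finish N E s sg best a) := by
  by_cases hall : sg.all (fun x => decide (x = 0)) = true
  · have hfin : W920.FD.finish N E s sg best a = s := by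
      unfold W920.FD.finish
      rw [if_pos hall]
    rw [hfin]
    exact hP
  · have hx : evF N w (s.2.1.getD best []) ≠ 0 := by
      intro h0
      apply hall
      rw [List.all_eq_true]
      intro x hx
      obtain ⟨l, hl, rfl⟩ := List.mem_iff_getElem.1 hx
      have h1 := hsg l (hsl ▸ hl)
      have h2 := hmax l (hsl ▸ hl)
      rw [h0, abs_zero] at h2
      have h3 := abs_nonpos_iff.1 h2
      rw [List.getD_eq_getElem _ _ hl] at h1
      exact decide_eq_true ((sg_zero _ _ h1).2 h3)
    specialize ha hx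
    set a' : List ℕ := (List.range N).map fun l => if l = best then 2 ^ ((N + 1) * E)
      else a.getD l 0 with ha'
    obtain ⟨s1, s2, s3, s4, s5⟩ := lSDA N E h a' hN1 hE
    have ha'' : ∀ l < N, a'.getD l 0 = if l = best then 2 ^ ((N + 1) * E) else a.getD l 0 :=
      fun l hl => getD_map_range N _ l 0 hl
    have s6 := s5 (by
      intro l hl
      rw [ha'' l hl]
      split_ifs with h
      · exact le_rfl
      · exact (ha l hl h).1.le)
    have hfin : W920.FD.finish N E s sg best a =
        (s.1 ++ [(fcomb N (sg.getD best 0) (s.2.1.getD best []) 0 [],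
          s.2.2 * (sda N E a').1)],
        ((List.range N).map fun l => fcomb N ((sda N E a').1 : ℤ) (s.2.1.getD l [])
          (-(sg.getD l 0 * sg.getD best 0 * (sda N E a').2.getD l 0))
          (s.2.1.getD best []), s.2.2 * (sda N E a').1)) := by
      unfold W920.FD.finish
      rw [if_neg hall]
    rw [hfin]
    clear hfin hall
    generalize sda N E a' = sd at s1 s2 s3 s4 s6 ⊢
    obtain ⟨q, vec⟩ := sd
    dsimp only at s1 s2 s3 s4 s6 ⊢
    have hvb : vec.getD best 0 = (q : ℤ) := by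
      have := s6 best hb
      rw [ha'' best hb, if_pos rfl] at this
      exact exact q _ _ _ this
    obtain ⟨S, hS1, hS2, hS3⟩ := hP
    -- `best` is new
    have hbS : best ∉ S := by
      intro hmem
      apply hx
      have h1 := (hS3 best hb).1 hmem
      unfold evF
      refine Finset.sum_eq_zero fun i hi => ?_
      rw [h1 i (Finset.mem_range.1 hi)]
      simp
    have hsq : (sg.getD best 0) * (sg.getD best 0) = 1 := by
      have h1 := sg_sq _ _ (hsg best hb) hx
      exact_mod_cast h1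
    have hsS : ∀ l ∈ S, sg.getD l 0 = 0 := by
      intro l hl
      have h1 := (hS3 l (hS2 l hl)).1 hl
      have h2 : evF N w (s.2.1.getD l []) = 0 := by
        unfold evF
        refine Finset.sum_eq_zero fun i hi => ?_
        rw [h1 i (Finset.mem_range.1 hi)]
        simp
      exact (sg_zero _ _ (hsg l (hS2 l hl))).2 h2
    have hnew : ∀ l < N, ∀ i < N, ((((List.range N).map fun l => fcomb N (q : ℤ)
        (s.2.1.getD l []) (-(sg.getD l 0 * sg.getD best 0 * vec.getD l 0))
          (s.2.1.getD best []))).getD l []).getD i 0 =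
        (q : ℤ) * (s.2.1.getD l []).getD i 0 +
          (-(sg.getD l 0 * sg.getD best 0 * vec.getD l 0)) * (s.2.1.getD best []).getD i 0 := by
      intro l hl i hi
      rw [getD_map_range N _ l [] hl, fcomb_getD N _ _ _ _ i hi]
    have hB := (hS3 best hb).2 hbS
    refine ⟨insert best S, ?_, ?_, ?_⟩
    · dsimp only
      rw [List.length_append, List.length_singleton, Finset.card_insert_of_notMem hbS]
      omega
    · intro l hl
      rcases Finset.mem_insert.1 hl with rfl | hl
      · exact hb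
      · exact hS2 l hl
    · intro l hl
      dsimp only
      refine ⟨fun hmem i hi => ?_, fun hmem => ?_⟩
      · rw [hnew l hl i hi]
        by_cases hlb : l = best
        · subst hlb
          rw [hvb]
          linear_combination (-(q : ℤ) * (s.2.1.getD l []).getD i 0) * hsq
        · have hlS : l ∈ S := by
            rcases Finset.mem_insert.1 hmem with h | h
            · exact absurd h hlb
            · exact h
          rw [hsS l hlS, (hS3 l hl).1 hlS i hi]
          ring
      · rw [Finset.mem_insert, not_or] at hmem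
        obtain ⟨hlb, hlS⟩ := hmem
        obtain ⟨c1, c2⟩ := (hS3 l hl).2 hlS
        refine ⟨?_, fun i hi hil hiS => ?_⟩
        · rw [hnew l hl l hl, c1, hB.2 l hl hlb hlS]
          push_cast
          ring
        · rw [Finset.mem_insert, not_or] at hiS
          rw [hnew l hl i hi, c2 i hi hil hiS.2, hB.2 i hi hiS.1 hiS.2]
          ring

/-- One stage. -/
theorem stgP (hbnd : S_BND) (hba : S_BATCH) (hit : S_ITER) (hmo : S_MONO) (hl : S_LIN)
    (hcmp : S_CMP) (hbis : S_BIS) (hfn : S_FN) (g : Reg → ℝ) (G : ℝ → Prop) (V : VS)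
    (w : ℕ → ℝ) (E h B L j : ℕ) (s : S2) (hN1 : 1 ≤ V.2.length) (hE : h + 2 * V.2.length + 4 ≤ E)
    (hB : ((V.2.length + 1) * E + 1) * j ≤ B)
    (hv : ∀ C : List ℤ, SmallL (B + ((V.2.length + 1) * E + 1) + 1) C →
      HasVal g G (fQ V C) (evF V.2.length w C) ∧ (fQ V C).1.length ≤ L)
    (hinv : Inv2 V.2.length E h w j s) (hpiv : PivInv V.2.length s) :
    ∃ s' : S2, (Inv2 V.2.length E h w (j + 1) s' ∧ PivInv V.2.length s') ∧ Runs g G (stage V E s) s'
      ((V.2.length + V.2.length * (V.2.length * 2)) * (L + 1) +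
        (V.2.length + 1) * E * (V.2.length * (L + 1))) := by
  obtain ⟨P, hP⟩ : ∃ P, P = (V.2.length + 1) * E := ⟨_, rfl⟩
  obtain ⟨x, hx⟩ : ∃ x : ℕ → ℝ, x = fun l => evF V.2.length w (s.2.1.getD l []) := ⟨_, rfl⟩
  have hF : ∀ l, SmallL B (s.2.1.getD l []) := by
    refine small_getD _ fun C hC => smallL_mono (hinv.1.2.2.2.1 C hC).2 hB
  rw [← hP] at hv
  obtain ⟨c1, hc1, hr1⟩ := runs_cmp hba V w s.2.1 g G L _ hl hF
    (fun C hC => hv C (smallL_mono hC (by omega)))
  rw [← hx] at hr1
  obtain ⟨o, ho⟩ : ∃ o, o = (cmpVals V.2.length x).map signOut := ⟨_, rfl⟩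
  rw [← ho] at hr1
  obtain ⟨hs1, hs2, hs3, hs4⟩ := hcmp V.2.length x hN1
  rw [← ho] at hs1 hs2 hs3 hs4
  obtain ⟨sg, hsg⟩ : ∃ sg, sg = sgOf V.2.length o := ⟨_, rfl⟩
  obtain ⟨best, hbest⟩ : ∃ best, best = bestOf V.2.length o := ⟨_, rfl⟩
  rw [← hsg] at hs1 hs2
  rw [← hbest] at hs3 hs4
  have hsx : ∀ l < V.2.length, sg.getD l 0 =
      (SignType.sign (evF V.2.length w (s.2.1.getD l [])) : ℤ) := by
    intro l hl'
    rw [hs2 l hl', hx]
  obtain ⟨st, hst⟩ : ∃ st : ℕ → ℕ × List ℕ, st = bisSt V.2.length P (fun l => |x l|)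
    |x best| := ⟨_, rfl⟩
  have hst0 : st 0 = (2 ^ P, (List.range V.2.length).map fun _ => 0) := by
    rw [hst]
    rfl
  obtain ⟨hbi1, hbi2⟩ := hbis V.2.length P (fun l => |x l|) |x best|
  rw [← hst] at hbi1 hbi2
  have hstep : ∀ i < P, Runs g G
      (bnd (batch (bisQs V P s.2.1 sg best (st i))) fun o' =>
        ret (bisUpd V.2.length (st i) o')) (st (i + 1)) (V.2.length * (L + 1)) := by
    intro i hi
    obtain ⟨h1, h2⟩ := hbi1 i hi.le
    obtain ⟨c2, hc2, hr2⟩ := runs_bis hba V w P s.2.1 g G L _ hl hF hv sg best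
      hs3 hsx (st i) h1 h2
    have h3 := hbnd _ _ g G (batch (bisQs V P s.2.1 sg best (st i)))
      (fun o' => ret (bisUpd V.2.length (st i) o')) _ _ _ _ hr2 (runs_ret g _ _)
    have h4 : bisUpd V.2.length (st i) (((List.range V.2.length).map fun l => 2 ^ P *
          |evF V.2.length w (s.2.1.getD l [])| -
            (((st i).2.getD l 0 + (st i).1 / 2 : ℕ) : ℝ) *
          |evF V.2.length w (s.2.1.getD best [])|).map signOut) = st (i + 1) := by
      rw [hst, hx]
      rfl
    rw [h4] at h3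
    exact hmo _ g _ _ _ _ _ _ (fun v hv => hv) (by omega) h3
  have hiter := hit _ g G (fun t => bnd (batch (bisQs V P s.2.1 sg best t))
    fun o' => ret (bisUpd V.2.length t o')) st P _ hstep
  rw [hst0] at hiter
  have h5 := hbnd _ _ g G _ (fun t => ret (W920.FD.finish V.2.length E s sg best t.2)) _ _ _ _
    hiter (runs_ret g _ _)
  have h6 := hbnd _ _ g G (batch (cmpQs V s.2.1)) (fun o =>
    bnd (iter (fun t => bnd (batch (bisQs V P s.2.1 (sgOf V.2.length o) (bestOf V.2.length o) t))
      fun o' => ret (bisUpd V.2.length t o')) P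
        (2 ^ P, (List.range V.2.length).map fun _ => 0)) fun t =>
      ret (W920.FD.finish V.2.length E s (sgOf V.2.length o) (bestOf V.2.length o) t.2)) o
    (W920.FD.finish V.2.length E s sg best (st P).2) _ _ hr1 (by
      rw [← hsg, ← hbest]
      exact h5)
  refine ⟨W920.FD.finish V.2.length E s sg best (st P).2, ?_, ?_⟩
  · have k1 : ∀ l < V.2.length, |evF V.2.length w (s.2.1.getD l [])| ≤
        |evF V.2.length w (s.2.1.getD best [])| := by
      intro l hl'
      have h := hs4 l hl'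
      rw [hx] at h
      exact h
    have k2 : evF V.2.length w (s.2.1.getD best []) ≠ 0 → ∀ l < V.2.length, l ≠ best →
        (st P).2.getD l 0 < 2 ^ ((V.2.length + 1) * E) ∧
        ((st P).2.getD l 0 : ℝ) * |evF V.2.length w (s.2.1.getD best [])| ≤
          2 ^ ((V.2.length + 1) * E) * |evF V.2.length w (s.2.1.getD l [])| ∧
        2 ^ ((V.2.length + 1) * E) * |evF V.2.length w (s.2.1.getD l [])| ≤
          (((st P).2.getD l 0 : ℝ) + 1) * |evF V.2.length w (s.2.1.getD best [])| := by
      intro hne l hl' _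
      have hX : 0 < |x best| := by
        rw [hx]
        exact abs_pos.2 hne
      have h := hbi2 hX l hl' (abs_nonneg _) (hs4 l hl')
      rw [hx] at h
      rw [← hP]
      exact h
    exact ⟨hfn V.2.length E h w j s sg best _ hN1 hE hinv hs1 hsx hs3 k1 k2,
      piv_finish V.2.length E h w s sg best _ hN1 hE hpiv hs1 hsx hs3 k1 k2⟩
  · subst hP
    exact hmo _ g _ _ _ _ _ _ (fun v hv => hv) (by omega) h6

theorem t_PSTGS : S_PSTGS := by
  have hbnd := lBND
  have hba := lBATCH
  have hit := lITER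
  have hmo := lMONO
  have hvf := lHVF
  have hl := lLIN
  have hcmp : S_CMP := t_CMP
  have hbis : S_BIS := t_BIS
  have hfn : W920.FD.S_FN := lFN
  intro qV pE
  obtain ⟨q1, hq1⟩ := hvf qV (((qV + 1) * pE + 1) * pE + ((qV + 1) * pE + 1) + 1)
  refine ⟨q1 + pE * ((qV + qV * (qV * 2)) * (q1 + 1) + (qV + 1) * pE * (qV * (q1 + 1))), ?_⟩
  intro S g V w E h J hg hV hE hEp hJp
  have hNp : V.2.length ≤ qV.eval S := hV.2.2.2.2.1
  have hN1 : 1 ≤ V.2.length := hV.2.2.2.2.2.1
  obtain ⟨L, hL⟩ : ∃ L, L = q1.eval S := ⟨_, rfl⟩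
  have hv : ∀ C : List ℤ, SmallL (((V.2.length + 1) * E + 1) * J +
      ((V.2.length + 1) * E + 1) + 1) C →
      HasVal g (Gd q1 S g) (fQ V C) (evF V.2.length w C) ∧ (fQ V C).1.length ≤ L := by
    intro C hC
    rw [hL]
    refine hq1 S g V w C hg hV (smallL_mono hC ?_)
    simp only [Polynomial.eval_add, Polynomial.eval_mul, Polynomial.eval_one]
    gcongr
  classical
  choose! nx hnx1 hnx2 using fun (j : ℕ) (s : S2) (hj : j < J)
    (hI : Inv2 V.2.length E h w j s ∧ PivInv V.2.length s) =>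
      stgP hbnd hba hit hmo hl hcmp hbis hfn g (Gd q1 S g) V w E h
        (((V.2.length + 1) * E + 1) * J) L j s hN1 hE (Nat.mul_le_mul le_rfl hj.le) hv hI.1 hI.2
  obtain ⟨s, hs0, hs⟩ : ∃ s : ℕ → S2, s 0 = ([], (unitF V.2.length, 1)) ∧
      ∀ i, s (i + 1) = nx i (s i) :=
    ⟨fun i => Nat.rec ([], (unitF V.2.length, 1)) (fun i x => nx i x) i, rfl, fun _ => rfl⟩
  have hI : ∀ i, i ≤ J → Inv2 V.2.length E h w i (s i) ∧ PivInv V.2.length (s i) := by
    intro i
    induction i with
    | zero =>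
      intro _
      rw [hs0]
      exact ⟨init hl _ _ _ _, piv_init _⟩
    | succ i ih =>
      intro hi
      rw [hs]
      exact hnx1 i (s i) (by omega) (ih (by omega))
  have hR := hit S2 g (Gd q1 S g) (stage V E) s J _
    (fun i hi => by
      rw [hs]
      exact hnx2 i (s i) hi (hI i hi.le))
  rw [hs0] at hR
  refine ⟨s J, (hI J le_rfl).1, (hI J le_rfl).2, ?_⟩
  refine hmo _ g _ _ _ _ _ _ (fun v hv => gd_mono (fun y => ?_) _ _ _ hv) ?_ hR
  · rw [Polynomial.eval_add]
    omega
  · simp only [Polynomial.eval_add, Polynomial.eval_mul, Polynomial.eval_ofNat,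
      Polynomial.eval_one]
    rw [← hL]
    refine le_trans ?_ (Nat.le_add_left _ _)
    gcongr

end Pool.Agent.TH822.GR
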